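import Mathlib
import Pool.Agent.Y972.DI.Dir

set_option autoImplicit false

/-!
# Covering posets without large antichains by highly directed ideals
-/

universe u

namespace Pool.Agent.Results.MP_cfac02_lc.DirectedCovering

/-- `P ∈ 𝒟(μ)`: the partially ordered set `P` contains no antichain (set of pairwise incomparable
elements) of cardinality `μ`. -/
def NoAntichain (μ : Cardinal.{u}) (P : Type u) [PartialOrder P] : Prop :=
  ¬ ∃ A : Set P, IsAntichain (· ≤ ·) A ∧ Cardinal.mk A = μ

/-- `P` is a union of fewer than `lam` ideals (`Order.Ideal`: nonempty up-directed initial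
segments). -/
def UnionOfFewer (lam : Cardinal.{u}) (P : Type u) [PartialOrder P] : Prop :=
  ∃ S : Set (Order.Ideal P), Cardinal.mk S < lam ∧ ∀ x : P, ∃ I ∈ S, x ∈ I

/-- `F μ` is the least cardinal `lam` such that every `P ∈ 𝒟(μ)` is a union of fewer than `lam`
ideals. -/
noncomputable def F (μ : Cardinal.{u}) : Cardinal.{u} :=
  sInf {lam | ∀ (P : Type u) [PartialOrder P], NoAntichain μ P → UnionOfFewer lam P}

/-- The ideal `I` is `τ`-directed: every subset of `I` of cardinality at most `τ` has an upper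
bound in `I`. -/
def IsDirected (τ : Cardinal.{u}) {P : Type u} [PartialOrder P] (I : Order.Ideal P) : Prop :=
  ∀ T : Set P, (∀ t ∈ T, t ∈ I) → Cardinal.mk T ≤ τ → ∃ b ∈ I, ∀ t ∈ T, t ≤ b

/-- `P` is a union of fewer than `lam` ideals which are `τ`-directed. -/
def UnionOfFewerDirected (τ lam : Cardinal.{u}) (P : Type u) [PartialOrder P] : Prop :=
  ∃ S : Set (Order.Ideal P), (∀ I ∈ S, IsDirected τ I) ∧ Cardinal.mk S < lam ∧
    ∀ x : P, ∃ I ∈ S, x ∈ I

/-- `FDirected τ μ` is the least cardinal `lam` such that every `P ∈ 𝒟(μ)` is a union of fewer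
than `lam` ideals which are `τ`-directed. -/
noncomputable def FDirected (τ μ : Cardinal.{u}) : Cardinal.{u} :=
  sInf {lam | ∀ (P : Type u) [PartialOrder P], NoAntichain μ P → UnionOfFewerDirected τ lam P}

/-- **`F(μ) = μ` for every singular strong limit cardinal `μ`, even with `τ`-directed ideals, for
every `τ < μ`; in particular, under GCH (hence under `V = L`), for every singular cardinal `μ`.** -/
theorem result :
    (∀ μ : Cardinal.{u}, μ.IsSingular → μ.IsStrongLimit →
      F μ = μ ∧ ∀ τ : Cardinal.{u}, τ < μ →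
        (∀ (P : Type u) [PartialOrder P], NoAntichain μ P → UnionOfFewerDirected τ μ P) ∧
        FDirected τ μ = μ) ∧
    ((∀ κ : Cardinal.{u}, Cardinal.aleph0 ≤ κ → (2 : Cardinal.{u}) ^ κ = Order.succ κ) →
      ∀ μ : Cardinal.{u}, μ.IsSingular →
        F μ = μ ∧ ∀ τ : Cardinal.{u}, τ < μ →
          (∀ (P : Type u) [PartialOrder P], NoAntichain μ P → UnionOfFewerDirected τ μ P) ∧
          FDirected τ μ = μ) := by
  have main : ∀ μ : Cardinal.{u}, μ.IsSingular → μ.IsStrongLimit →
      F μ = μ ∧ ∀ τ : Cardinal.{u}, τ < μ →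
        (∀ (P : Type u) [PartialOrder P], NoAntichain μ P → UnionOfFewerDirected τ μ P) ∧
        FDirected τ μ = μ := by
    intro μ hμ hsl
    have h0 : ∀ τ : Cardinal.{u}, τ < μ →
        ∀ (P : Type u) [PartialOrder P], NoAntichain μ P → UnionOfFewerDirected τ μ P := by
      intro τ hτ P _ hP
      obtain ⟨S, hS1, hS2, hS3⟩ := Pool.Agent.Y972.DI.final_t hμ hsl hτ hP
      exact ⟨S, fun I hI T hT hc => hS1 I hI T hT hc, hS2, hS3⟩
    have hd : ∀ lam : Cardinal.{u}, lam < μ →
        NoAntichain μ (Pool.Agent.Helper113.F.Disc lam.out) := by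
      rintro lam hlt ⟨A, _, hA⟩
      have h3 : Cardinal.mk A ≤ lam := by
        calc Cardinal.mk A ≤ Cardinal.mk (Pool.Agent.Helper113.F.Disc lam.out) :=
              Cardinal.mk_set_le A
          _ = Cardinal.mk lam.out := rfl
          _ = lam := Cardinal.mk_out lam
      rw [hA] at h3
      exact absurd h3 (not_le.2 hlt)
    have h1 : ∀ (P : Type u) [PartialOrder P], NoAntichain μ P → UnionOfFewer μ P := by
      intro P _ hP
      obtain ⟨S, -, hS2, hS3⟩ := h0 0 hμ.pos P hP
      exact ⟨S, hS2, hS3⟩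
    refine ⟨le_antisymm (csInf_le' h1) ?_, ?_⟩
    · refine le_csInf ⟨μ, h1⟩ ?_
      intro lam hlam
      by_contra hlt
      rw [not_le] at hlt
      obtain ⟨S, hS1, hS2⟩ := hlam (Pool.Agent.Helper113.F.Disc lam.out) (hd lam hlt)
      exact absurd (Pool.Agent.Helper113.F.disc_lower S hS2) (not_le.2 hS1)
    · intro τ hτ
      refine ⟨h0 τ hτ, le_antisymm (csInf_le' (h0 τ hτ)) ?_⟩
      refine le_csInf ⟨μ, h0 τ hτ⟩ ?_
      intro lam hlam
      by_contra hlt
      rw [not_le] at hlt
      obtain ⟨S, -, hS1, hS2⟩ := hlam (Pool.Agent.Helper113.F.Disc lam.out) (hd lam hlt)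
      exact absurd (Pool.Agent.Helper113.F.disc_lower S hS2) (not_le.2 hS1)
  refine ⟨main, ?_⟩
  intro gch μ hμ
  exact main μ hμ (Pool.Agent.Helper113.F.strongLimit_of_gch gch hμ)

end Pool.Agent.Results.MP_cfac02_lc.DirectedCovering
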